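import Pool.Agent.KS6_11.BA.Dig2

/-!
# The zero-one law for `Bad_A` on cosets fails in the strongest possible way

For one non-singular real `2 × 1` matrix `A` every nonempty closed subset `F` of the circle is the
set of the targets of some horizontal circle `𝕋 × {y}` which are NOT badly approximable for `A`.
Hence the values `μ(Bad_A)` of the one-dimensional algebraic measures fill the interval `[0,1]`.

The matrix is the one of the library (`Pool.Graph.R_seed8.R331.BA`). The new points: the criterion
for a target to be badly approximable at every precision (`KS6_11.BA.key`, `bad_of_far`), the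
two-sided criterion for the converse (`not_bad`), and digit sequences with an arbitrary prescribed
set of limit points.

Definitions (library): `Torus m = 𝕋^m` with the sup norm, `Bad A` is `Bad_A`, `Singular A`,
`Coset m k` a `k`-dimensional coset `x + φ(𝕋^k)` of a subtorus, `Coset.haar` its algebraic measure,
and `hor y` the horizontal circle `𝕋 × {y}` in `𝕋²`.
-/

set_option autoImplicit false

namespace Pool.Agent.Results.MP_39ae23_nt.EveryClosedSet

open Pool.Agent.R331.BA MeasureTheory

/-- There is a non-singular real `2 × 1` matrix `A` such that (1) for every nonempty closed subset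
`F` of the circle there is a `y` such that, for every `t`, the target `(t, y)` is badly
approximable for `A` if and only if `t` is not in `F`; the algebraic measure of the circle
`𝕋 × {y}` of `Bad_A` is then the Haar measure of the complement of `F`; and (2) every number in
`[0,1]` is the value `μ(Bad_A)` for a one-dimensional algebraic measure `μ`. -/
theorem result : ∃ A : Matrix (Fin 2) (Fin 1) ℝ, ¬ Singular A ∧ MeasurableSet (Bad A) ∧
    (∀ F : Set UnitAddCircle, IsClosed F → F.Nonempty → ∃ y : UnitAddCircle,
      (∀ t : UnitAddCircle, (![t, y] : Torus 2) ∈ Bad A ↔ t ∉ F) ∧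
      (hor y).haar (Bad A) = volume Fᶜ) ∧
    ∀ c : ℝ, 0 ≤ c → c ≤ 1 → ∃ C : Coset 2 1, C.haar (Bad A) = ENNReal.ofReal c := by
  have main : ∀ F : Set UnitAddCircle, IsClosed F → F.Nonempty → ∃ y : UnitAddCircle,
      (∀ t : UnitAddCircle, (![t, y] : Torus 2) ∈ Bad (col α₁ α₂) ↔ t ∉ F) ∧
      (hor y).haar (Bad (col α₁ α₂)) = volume Fᶜ := by
    intro F hF hne
    obtain ⟨y, hy⟩ := Pool.Agent.KS6_11.BA.exists_circle F hF hne
    exact ⟨y, hy, Pool.Agent.KS6_11.BA.haar_eq F y hy⟩
  refine ⟨col α₁ α₂, nonsingular, measurableSet_Bad _, main, fun c h0 h1 => ?_⟩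
  obtain ⟨y, -, hy⟩ := main (Metric.closedBall 0 ((1 - c) / 2)) Metric.isClosed_closedBall
    ⟨0, Metric.mem_closedBall_self (by linarith)⟩
  refine ⟨hor y, ?_⟩
  have := prob_circle
  rw [hy, prob_compl_eq_one_sub measurableSet_closedBall, AddCircle.volume_closedBall]
  have e : min 1 (2 * ((1 - c) / 2)) = 1 - c := by
    rw [min_eq_right (by linarith)]
    ring
  rw [e]
  have h2 : (1 : ENNReal) = ENNReal.ofReal 1 := by simp
  rw [h2, ← ENNReal.ofReal_sub _ (by linarith)]
  congr 1
  ring

end Pool.Agent.Results.MP_39ae23_nt.EveryClosedSet
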